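import Pool.Agent.KS6_47.Mzf.B

/-! Binomial coefficients: constant sequences, and a nonconstant sequence of length
`m (q - 1) - 1`. -/

namespace Pool.Agent.KS6_47.Mzf.C

open Finset

theorem esymm_rep {R : Type*} [CommRing R] (a : R) (l m : ℕ) :
    (Multiset.replicate l a).esymm m = (l.choose m : R) * a ^ m := by
  have h : Multiset.replicate l a = (univ : Finset (Fin l)).val.map (fun _ => a) := by
    rw [Multiset.map_const', card_val, card_univ, Fintype.card_fin]
  rw [h, Finset.esymm_map_val, Finset.sum_congr rfl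
    (fun T hT => by rw [prod_const, (mem_powersetCard.1 hT).2]), sum_const, card_powersetCard,
    card_univ, Fintype.card_fin, nsmul_eq_mul]

theorem esymm_cons {R : Type*} [CommRing R] (a : R) (S : Multiset R) (n : ℕ) :
    (a ::ₘ S).esymm (n + 1) = S.esymm (n + 1) + a * S.esymm n := by
  unfold Multiset.esymm
  rw [Multiset.powersetCard_cons, Multiset.map_add, Multiset.sum_add, Multiset.map_map]
  congr 1
  rw [← Multiset.sum_map_mul_left]
  congr 1
  refine Multiset.map_congr rfl (fun T _ => ?_)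
  simp

theorem not_dvd (p r s l : ℕ) (hp : p.Prime) (hr : 1 ≤ r) (h1 : p ^ s ≤ l)
    (h2 : l < p ^ s * p ^ r) : ¬ p ^ r ∣ l.choose (p ^ s) := by
  intro hd
  have hl : l < p ^ (s + r) := by rw [pow_add]; exact h2
  have hps : 0 < p ^ s := pow_pos hp.pos s
  have hne : l.choose (p ^ s) ≠ 0 := (Nat.choose_pos h1).ne'
  have h3 : r ≤ (l.choose (p ^ s)).factorization p :=
    (hp.pow_dvd_iff_le_factorization hne).1 hd
  have hlog : Nat.log p l < s + r := Nat.log_lt_of_lt_pow (by omega) hl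
  rw [Nat.factorization_choose hp h1 hlog] at h3
  have h4 : ((Ico 1 (s + r)).filter fun i => p ^ i ≤ p ^ s % p ^ i + (l - p ^ s) % p ^ i) ⊆
      Ico (s + 1) (s + r) := by
    intro i hi
    rw [mem_filter, mem_Ico] at hi
    rw [mem_Ico]
    refine ⟨?_, hi.1.2⟩
    by_contra hcon
    have h5 : p ^ s % p ^ i = 0 := Nat.mod_eq_zero_of_dvd (pow_dvd_pow p (by omega))
    have h6 : (l - p ^ s) % p ^ i < p ^ i := Nat.mod_lt _ (pow_pos hp.pos i)
    rw [h5] at hi
    omega
  have h7 := card_le_card h4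
  rw [Nat.card_Ico] at h7
  omega

theorem dvd_choose (p r s : ℕ) (hp : p.Prime) :
    p ^ r ∣ (p ^ s * p ^ r).choose (p ^ s) := by
  obtain ⟨k, hk⟩ : ∃ k, p ^ s = k + 1 := ⟨p ^ s - 1, by have := pow_pos hp.pos s; omega⟩
  obtain ⟨n, hn⟩ : ∃ n, p ^ s * p ^ r = n + 1 := ⟨p ^ s * p ^ r - 1, by
    have : 0 < p ^ s * p ^ r := Nat.mul_pos (pow_pos hp.pos s) (pow_pos hp.pos r)
    omega⟩
  have h := Nat.add_one_mul_choose_eq n k
  refine ⟨n.choose k, ?_⟩
  have h1 : (p ^ s * p ^ r).choose (p ^ s) * p ^ s = p ^ s * p ^ r * n.choose k := by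
    rw [hn, hk]
    exact h.symm
  have h2 : p ^ s * (p ^ s * p ^ r).choose (p ^ s) = p ^ s * (p ^ r * n.choose k) := by
    rw [mul_comm, h1]
    ring
  exact Nat.eq_of_mul_eq_mul_left (pow_pos hp.pos s) h2

theorem sharp_num (p r s N : ℕ) (hp : p.Prime) (hr : 1 ≤ r) (h1 : p ^ s ≤ N)
    (h2 : N + 1 ≤ p ^ s * (p ^ r - 1)) :
    ¬ p ^ r ∣ N.choose (p ^ s) + (N - 1).choose (p ^ s - 1) := by
  have := Fact.mk hp
  intro hd
  have hps : 0 < p ^ s := pow_pos hp.pos s
  have hpr : 0 < p ^ r := pow_pos hp.pos r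
  have hmq : p ^ s * (p ^ r - 1) + p ^ s = p ^ s * p ^ r := by
    rw [← Nat.mul_succ]
    congr 1
    omega
  obtain ⟨k, hk⟩ : ∃ k, p ^ s = k + 1 := ⟨p ^ s - 1, by omega⟩
  obtain ⟨N', rfl⟩ : ∃ N', N = N' + 1 := ⟨N - 1, by omega⟩
  have h := Nat.add_one_mul_choose_eq N' k
  rw [← hk] at h
  have hk' : p ^ s - 1 = k := by omega
  rw [hk', Nat.add_sub_cancel] at hd
  obtain ⟨v, N0, hN0, hN⟩ := Nat.exists_eq_pow_mul_and_not_dvd (Nat.succ_ne_zero N') p
    hp.ne_one
  rcases lt_or_ge v s with hv | hv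
  · -- `m` does not divide `N`
    have h3 : (N' + 1) * ((N' + 1).choose (p ^ s) + N'.choose k) =
        (N' + 1 + p ^ s) * (N' + 1).choose (p ^ s) := by
      rw [mul_add, h]
      ring
    have h4 : p ^ s = p ^ v * p ^ (s - v) := by rw [← pow_add]; congr 1; omega
    have h5 : p ^ v * (N0 * ((N' + 1).choose (p ^ s) + N'.choose k)) =
        p ^ v * ((N0 + p ^ (s - v)) * (N' + 1).choose (p ^ s)) := by
      have e1 : p ^ v * (N0 * ((N' + 1).choose (p ^ s) + N'.choose k)) =
          (N' + 1) * ((N' + 1).choose (p ^ s) + N'.choose k) := by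
        conv_rhs => rw [show N' + 1 = p ^ v * N0 from hN]
        conv_lhs => rw [show N' + 1 = p ^ v * N0 from hN]
        ring
      have e2 : p ^ v * ((N0 + p ^ (s - v)) * (N' + 1).choose (p ^ s)) =
          (N' + 1 + p ^ s) * (N' + 1).choose (p ^ s) := by
        have e3 : N' + 1 + p ^ s = p ^ v * (N0 + p ^ (s - v)) := by
          rw [mul_add, ← h4, ← hN]
        rw [e3]
        ring
      rw [e1, e2, h3]
    have h6 := Nat.eq_of_mul_eq_mul_left (pow_pos hp.pos v) h5
    have h7 : p ^ r ∣ (N0 + p ^ (s - v)) * (N' + 1).choose (p ^ s) := by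
      rw [← h6]
      exact Dvd.dvd.mul_left hd _
    have h8 : Nat.Coprime (p ^ r) (N0 + p ^ (s - v)) := by
      apply Nat.Coprime.pow_left
      rw [hp.coprime_iff_not_dvd]
      intro h9
      exact hN0 ((Nat.dvd_add_left (dvd_pow_self p (by omega))).1 h9)
    have h9 := h8.dvd_of_dvd_mul_left h7
    exact not_dvd p r s (N' + 1) hp hr h1 (by omega) h9
  · -- `m` divides `N`
    obtain ⟨k', hk2⟩ : p ^ s ∣ N' + 1 := by
      rw [show N' + 1 = p ^ v * N0 from hN]
      exact Dvd.dvd.mul_right (pow_dvd_pow p hv) _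
    have h3 : (N' + 1).choose (p ^ s) = k' * N'.choose k := by
      have e1 : p ^ s * (N' + 1).choose (p ^ s) = p ^ s * (k' * N'.choose k) := by
        rw [mul_comm, ← h, hk2]
        ring
      exact Nat.eq_of_mul_eq_mul_left hps e1
    have hk0 : 0 < k' := by
      rcases Nat.eq_zero_or_pos k' with h0 | h0
      · rw [h0, mul_zero] at hk2
        omega
      · exact h0
    have h4 : (N'.choose k : ZMod p) = 1 := by
      have e := B.ch_one p hk (k' - 1)
      have e2 : (k + 1) * (k' - 1) + k = N' := by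
        obtain ⟨j, rfl⟩ : ∃ j, k' = j + 1 := ⟨k' - 1, by omega⟩
        rw [hk] at hk2
        rw [Nat.add_sub_cancel]
        have e3 : (k + 1) * (j + 1) = (k + 1) * j + (k + 1) := by ring
        omega
      rwa [e2] at e
    have h5 : Nat.Coprime (p ^ r) (N'.choose k) := by
      apply Nat.Coprime.pow_left
      rw [hp.coprime_iff_not_dvd]
      intro h9
      rw [← ZMod.natCast_eq_zero_iff, h4] at h9
      exact one_ne_zero h9
    rw [h3] at hd
    have h6 : k' * N'.choose k + N'.choose k = (k' + 1) * N'.choose k := by ring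
    rw [h6] at hd
    have h7 := h5.dvd_of_dvd_mul_right hd
    have h8 := Nat.le_of_dvd (Nat.succ_pos k') h7
    have h9 : p ^ s * k' < p ^ s * (p ^ r - 1) := by omega
    have h10 := lt_of_mul_lt_mul_left h9 (Nat.zero_le _)
    omega

/-- `S` is `m`-zero free: the elementary symmetric sum of degree `m` of every subsequence of
length at least `m` is not zero. -/
def ZeroFree {n : ℕ} (m : ℕ) (S : Multiset (ZMod n)) : Prop :=
  ∀ T : Multiset (ZMod n), T ≤ S → m ≤ T.card → T.esymm m ≠ 0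

theorem const_zeroFree (p r s L : ℕ) (hp : p.Prime) (hr : 1 ≤ r) (a : ZMod (p ^ r))
    (ha : IsUnit a) (hL : L < p ^ s * p ^ r) : ZeroFree (p ^ s) (Multiset.replicate L a) := by
  intro T hT hm h0
  obtain ⟨l, hl, rfl⟩ := Multiset.le_replicate_iff.1 hT
  rw [Multiset.card_replicate] at hm
  rw [esymm_rep] at h0
  have h1 : (l.choose (p ^ s) : ZMod (p ^ r)) = 0 :=
    ((ha.pow _).mul_left_eq_zero).1 h0
  rw [ZMod.natCast_eq_zero_iff] at h1
  exact not_dvd p r s l hp hr hm (by omega) h1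

theorem const_not_zeroFree (p r s L : ℕ) (hp : p.Prime) (a : ZMod (p ^ r))
    (hL : p ^ s * p ^ r ≤ L) : ¬ ZeroFree (p ^ s) (Multiset.replicate L a) := by
  intro h
  refine h (Multiset.replicate (p ^ s * p ^ r) a)
    ((Multiset.replicate_le_replicate a).2 hL) ?_ ?_
  · rw [Multiset.card_replicate]
    exact Nat.le_mul_of_pos_right _ (pow_pos hp.pos r)
  · rw [esymm_rep, (ZMod.natCast_eq_zero_iff _ _).2 (dvd_choose p r s hp), zero_mul]

theorem classify (p r s : ℕ) (hp : p.Prime) (hr : 1 ≤ r) (S : Multiset (ZMod (p ^ r)))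
    (hS : p ^ s * (p ^ r - 1) < S.card ∨ (p ^ s * (p ^ r - 1) = S.card ∧ (s = 0 ∨ p = 2))) :
    ZeroFree (p ^ s) S ↔
      S.card < p ^ s * p ^ r ∧ ∃ a : ZMod (p ^ r), IsUnit a ∧ S = Multiset.replicate S.card a := by
  constructor
  · intro h
    obtain ⟨a, ha, hSa⟩ := B.main p r s hp hr S (by rcases hS with h | h <;> omega)
      (by rcases hS with h | h
          · exact Or.inl h
          · exact Or.inr h.2) h
    refine ⟨?_, a, ha, hSa⟩
    by_contra hcon
    rw [hSa] at h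
    exact const_not_zeroFree p r s S.card hp a (by omega) h
  · rintro ⟨hlt, a, ha, hSa⟩
    rw [hSa]
    exact const_zeroFree p r s _ hp hr a ha hlt

theorem count (p r s L : ℕ) (hp : p.Prime) (hr : 1 ≤ r)
    (hL : p ^ s * (p ^ r - 1) < L ∨ (p ^ s * (p ^ r - 1) = L ∧ (s = 0 ∨ p = 2)))
    (hL' : L < p ^ s * p ^ r) :
    {S : Multiset (ZMod (p ^ r)) | S.card = L ∧ ZeroFree (p ^ s) S}.ncard =
      Nat.totient (p ^ r) := by
  classical
  have hpr : 2 ≤ p ^ r := le_trans hp.two_le (Nat.le_self_pow (by omega) p)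
  have hne : NeZero (p ^ r) := ⟨by omega⟩
  have hL0 : 0 < L := by
    have h1 : 1 * 1 ≤ p ^ s * (p ^ r - 1) := Nat.mul_le_mul (pow_pos hp.pos s) (by omega)
    omega
  have hset : {S : Multiset (ZMod (p ^ r)) | S.card = L ∧ ZeroFree (p ^ s) S} =
      Set.range (fun a : (ZMod (p ^ r))ˣ => Multiset.replicate L (a : ZMod (p ^ r))) := by
    ext S
    constructor
    · rintro ⟨hc, hz⟩
      obtain ⟨-, a, ha, hSa⟩ := (classify p r s hp hr S (by rw [hc]; exact hL)).1 hz
      obtain ⟨u, rfl⟩ := ha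
      exact ⟨u, by rw [hc] at hSa; exact hSa.symm⟩
    · rintro ⟨u, rfl⟩
      exact ⟨Multiset.card_replicate _ _, const_zeroFree p r s L hp hr _ u.isUnit hL'⟩
  rw [hset, ← Set.image_univ, Set.ncard_image_of_injective, Set.ncard_univ,
    Nat.card_eq_fintype_card, ZMod.card_units_eq_totient]
  intro u v huv
  have h1 : (u : ZMod (p ^ r)) ∈ Multiset.replicate L (u : ZMod (p ^ r)) :=
    Multiset.mem_replicate.2 ⟨hL0.ne', rfl⟩
  have h2 : Multiset.replicate L (u : ZMod (p ^ r)) = Multiset.replicate L (v : ZMod (p ^ r)) :=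
    huv
  rw [h2] at h1
  exact Units.ext (Multiset.eq_of_mem_replicate h1)

/-- a nonconstant zero free sequence of length `m (q - 1) - 1` -/
theorem sharp (p r s : ℕ) (hp : p.Prime) (hr : 1 ≤ r) (h3 : 3 ≤ p ^ s * (p ^ r - 1)) :
    ∃ S : Multiset (ZMod (p ^ r)), S.card = p ^ s * (p ^ r - 1) - 1 ∧ ZeroFree (p ^ s) S ∧
      ¬ ∃ a, S = Multiset.replicate S.card a := by
  classical
  have hpr : 2 ≤ p ^ r := le_trans hp.two_le (Nat.le_self_pow (by omega) p)
  have hnt : Fact (1 < p ^ r) := ⟨by omega⟩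
  have hps : 0 < p ^ s := pow_pos hp.pos s
  have hmq : p ^ s * (p ^ r - 1) + p ^ s = p ^ s * p ^ r := by
    rw [← Nat.mul_succ]
    congr 1
    omega
  have h12 : (1 : ZMod (p ^ r)) ≠ 2 := by
    intro h
    have h1 : (1 : ZMod (p ^ r)) + 0 = 1 + 1 := by rw [add_zero, one_add_one_eq_two]; exact h
    exact zero_ne_one (add_left_cancel h1)
  refine ⟨2 ::ₘ Multiset.replicate (p ^ s * (p ^ r - 1) - 2) 1, ?_, ?_, ?_⟩
  · rw [Multiset.card_cons, Multiset.card_replicate]
    omega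
  · intro T hT hm h0
    by_cases h2 : (2 : ZMod (p ^ r)) ∈ T
    · obtain ⟨T', rfl⟩ := Multiset.exists_cons_of_mem h2
      rw [Multiset.cons_le_cons_iff] at hT
      obtain ⟨l, hl, rfl⟩ := Multiset.le_replicate_iff.1 hT
      rw [Multiset.card_cons, Multiset.card_replicate] at hm
      obtain ⟨k, hk⟩ : ∃ k, p ^ s = k + 1 := ⟨p ^ s - 1, by omega⟩
      rw [hk, esymm_cons, esymm_rep, esymm_rep, one_pow, one_pow, mul_one, mul_one] at h0
      have h5 : (((l + 1).choose (p ^ s) + (l + 1 - 1).choose (p ^ s - 1) : ℕ) :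
          ZMod (p ^ r)) = 0 := by
        rw [hk, Nat.add_sub_cancel, Nat.add_sub_cancel, Nat.choose_succ_succ, ← h0]
        push_cast
        ring
      rw [ZMod.natCast_eq_zero_iff] at h5
      exact sharp_num p r s (l + 1) hp hr hm (by omega) h5
    · rw [Multiset.le_cons_of_notMem h2] at hT
      obtain ⟨l, hl, rfl⟩ := Multiset.le_replicate_iff.1 hT
      rw [Multiset.card_replicate] at hm
      rw [esymm_rep, one_pow, mul_one, ZMod.natCast_eq_zero_iff] at h0
      exact not_dvd p r s l hp hr hm (by omega) h0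
  · rintro ⟨a, ha⟩
    have e1 : (2 : ZMod (p ^ r)) ∈ 2 ::ₘ Multiset.replicate (p ^ s * (p ^ r - 1) - 2)
        (1 : ZMod (p ^ r)) := Multiset.mem_cons_self _ _
    have e2 : (1 : ZMod (p ^ r)) ∈ 2 ::ₘ Multiset.replicate (p ^ s * (p ^ r - 1) - 2)
        (1 : ZMod (p ^ r)) :=
      Multiset.mem_cons_of_mem (Multiset.mem_replicate.2 ⟨by omega, rfl⟩)
    rw [ha] at e1 e2
    exact h12 ((Multiset.eq_of_mem_replicate e2).trans (Multiset.eq_of_mem_replicate e1).symm)

end Pool.Agent.KS6_47.Mzf.C
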